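import Pool.Agent.MP_82452b_an.H20.Conj

/-!
# The fixed points of an outer involution
-/

namespace Pool.Agent.MP_82452b_an.H8

open Filter Topology Pool.Agent.MP_755d6b_an.H98
open scoped InnerProductSpace ComplexOrder

variable {K : Type} [NormedAddCommGroup K] [InnerProductSpace ℂ K] [CompleteSpace K]

theorem cycProj_eq {P : VonNeumannAlgebra K} {Ψ : K} {e : K →L[ℂ] K} (hs : star e = e)
    (h1 : ∀ p ∈ P, e (p Ψ) = p Ψ) (h2 : ∀ ξ, e ξ ∈ closure {η | ∃ x ∈ P, x Ψ = η}) :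
    cycProj P Ψ = e := by
  ext ξ
  refine Submodule.eq_starProjection_of_mem_of_inner_eq_zero
    (closure_mono Submodule.subset_span (h2 ξ)) fun w hw => ?_
  have h3 : (Submodule.span ℂ {η | ∃ x ∈ P, x Ψ = η}).topologicalClosure ≤ (e - 1).ker := by
    refine Submodule.topologicalClosure_minimal _ (Submodule.span_le.2 ?_) (e - 1).isClosed_ker
    rintro _ ⟨p, hp, rfl⟩
    exact sub_eq_zero.2 (h1 p hp)
  have h4 : e w = w := sub_eq_zero.1 (h3 hw)
  rw [inner_sub_left, ← hs, inner_star_apply, h4, sub_self]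

theorem cycProj_self (P : VonNeumannAlgebra K) (Ψ : K) : cycProj P Ψ Ψ = Ψ :=
  Submodule.starProjection_eq_self_iff.2
    (subset_closure (Submodule.subset_span ⟨1, one_mem P, rfl⟩))

/-- The fixed points of an outer involution with an odd symmetry form an index 2 subfactor. -/
theorem indexTwo_of_involution {L : VonNeumannAlgebra K} {Ψ : K} (hL : IsStdII1 L Ψ)
    {S v : K →L[ℂ] K} (hS2 : S * S = 1) (hSs : star S = S) (hSΨ : S Ψ = Ψ)
    (hSL : ∀ y ∈ L, S * y * S ∈ L) (hv : v ∈ L) (hv2 : v * v = 1) (hvs : star v = v)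
    (hvS : S * v * S = -v)
    (hout : ∀ w ∈ L, (∀ y ∈ L, w * y = S * y * S * w) → w = 0) :
    ∃ P : VonNeumannAlgebra K, IndexTwo P L Ψ := by
  have h := hL.isSF
  obtain ⟨J, hJ, -, hJs⟩ := h.exists_J
  obtain ⟨R, hR, hRc, hRs, -, -⟩ := h.exists_R
  have hSS : ∀ y, S * (S * y) = y := fun y => by rw [← mul_assoc, hS2, one_mul]
  have hvv : ∀ y, v * (v * y) = y := fun y => by rw [← mul_assoc, hv2, one_mul]
  have hvS1 : v * S = -(S * v) := by rw [← mul_neg, ← hvS, mul_assoc S v S, hSS]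
  have hvS2 : ∀ y, v * (S * y) = -(S * (v * y)) := fun y => by
    rw [← mul_assoc, hvS1, neg_mul, mul_assoc]
  let P : VonNeumannAlgebra K := vnComm ((L.commutant : Set (K →L[ℂ] K)) ∪ {S})
  have hP : ∀ y, y ∈ P ↔ y ∈ L ∧ S * y * S = y := by
    intro y
    rw [mem_vnComm (by
      rintro r (hr | hr)
      · exact Or.inl (star_mem hr)
      · exact Or.inr (by rw [hr, hSs]; rfl))]
    refine ⟨fun hy => ⟨?_, ?_⟩, ?_⟩
    · rw [← L.commutant_commutant, VonNeumannAlgebra.mem_commutant_iff]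
      exact fun g hg => hy g (Or.inl hg)
    · rw [hy S (Or.inr rfl), mul_assoc, hS2, mul_one]
    · rintro ⟨h1, h2⟩ r (hr | hr)
      · exact (VonNeumannAlgebra.mem_commutant_iff.1 hr y h1).symm
      · rw [hr]
        conv_rhs => rw [← h2, mul_assoc, hS2, mul_one]
  have hPL : ∀ y ∈ P, y ∈ L := fun y hy => ((hP y).1 hy).1
  have hdec : ∀ y ∈ L, ∃ p ∈ P, ∃ q ∈ P, y = p + q * v ∧ S * y * S = p - q * v := by
    intro y hy
    refine ⟨(1 / 2 : ℂ) • (y + S * y * S), (hP _).2 ⟨smul_mem_vN _ (add_mem hy (hSL y hy)), ?_⟩,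
      (1 / 2 : ℂ) • ((y - S * y * S) * v),
      (hP _).2 ⟨smul_mem_vN _ (mul_mem (sub_mem hy (hSL y hy)) hv), ?_⟩, ?_, ?_⟩ <;>
    simp only [mul_assoc, hSS, hS2, hv2, hvS1, mul_add, add_mul, mul_sub, sub_mul, mul_neg,
      smul_mul_assoc, mul_smul_comm, mul_one] <;> module
  have hSy : ∀ y : K →L[ℂ] K, S (y Ψ) = (S * y * S) Ψ := fun y => by
    simp only [mul_apply_eq_comp, hSΨ]
  let e : K →L[ℂ] K := (1 / 2 : ℂ) • (1 + S)
  have he : ∀ ξ, e ξ = (1 / 2 : ℂ) • (ξ + S ξ) := fun ξ => rfl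
  have hes : star e = e := by
    simp only [e, star_smul, star_add, star_one, hSs]
    simp
  have heP : ∀ p ∈ P, e (p Ψ) = p Ψ := fun p hp => by
    rw [he, hSy, ((hP p).1 hp).2]
    module
  have hE : ∀ y ∈ L, ∃ p ∈ P, e (y Ψ) = p Ψ := fun y hy => by
    obtain ⟨p, hp, q, -, h1, h2⟩ := hdec y hy
    refine ⟨p, hp, ?_⟩
    rw [he, hSy, h2, h1, add_apply, sub_apply]
    module
  have hcyc : cycProj P Ψ = e := cycProj_eq hes heP fun ξ =>
    h.induction (p := fun ξ => e ξ ∈ closure {η | ∃ x ∈ P, x Ψ = η})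
      (isClosed_closure.preimage e.continuous) (fun y hy => by
        obtain ⟨p, hp, h1⟩ := hE y hy
        exact subset_closure ⟨p, hp, h1.symm⟩) ξ
  have hJS : ∀ ξ, J (S ξ) = S (J ξ) := fun ξ =>
    h.induction (p := fun ξ => J (S ξ) = S (J ξ)) (isClosed_eq (by fun_prop) (by fun_prop))
      (fun y hy => by
        rw [hSy, hJ _ (hSL y hy), hJ y hy, hSy, star_mul, star_mul, hSs, mul_assoc]) ξ
  have hJe : ∀ ξ, J (e ξ) = e (J ξ) := fun ξ => by
    rw [he, he, map_smulₛₗ, map_add, hJS]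
    simp [map_ofNat]
  have hei : ∀ ξ η, ⟪e ξ, η⟫_ℂ = ⟪ξ, e η⟫_ℂ := fun ξ η => by
    rw [← inner_star_apply, hes]
  have hA : ∀ A ∈ P.commutant, e ((star A) Ψ) = e (J (A Ψ)) := by
    intro A hA
    refine h.vec_ext fun y hy => ?_
    obtain ⟨p, hp, h1⟩ := hE y hy
    rw [hei, hei, h1, inner_star_apply, hJs, hJ p (hPL p hp), inner_star_apply,
      ← mul_apply_eq_comp p, VonNeumannAlgebra.mem_commutant_iff.1 hA p hp, mul_apply_eq_comp]
  have hψ : ∀ A ∈ P.commutant, ∀ B ∈ P.commutant,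
      ⟪Ψ, A (e (B Ψ))⟫_ℂ = ⟪Ψ, B (e (A Ψ))⟫_ℂ := by
    intro A hA' B hB'
    rw [← inner_star_apply A Ψ, ← inner_star_apply B Ψ, ← hei, ← hei, hA A hA', hA B hB', ← hJe,
      hJs, hei]
  let r := R v
  have hrP : r ∈ P.commutant := VonNeumannAlgebra.mem_commutant_iff.2 fun g hg =>
    VonNeumannAlgebra.mem_commutant_iff.1 (hRc v hv) g (hPL g hg)
  have hrs : star r = r := by rw [hRs v hv, hvs]
  have hrΨ : r Ψ = v Ψ := hR v hv 1 (one_mem L)
  have hri : ∀ ξ η, ⟪r ξ, η⟫_ℂ = ⟪ξ, r η⟫_ℂ := fun ξ η => by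
    rw [← inner_star_apply, hrs]
  have hsplit : ∀ ξ, ξ = e ξ + r (e (r ξ)) := fun ξ =>
    h.induction (p := fun ξ => ξ = e ξ + r (e (r ξ))) (isClosed_eq (by fun_prop) (by fun_prop))
      (fun y hy => by
        have h1 : r (y Ψ) = (y * v) Ψ := hR v hv y hy
        have h2 : r ((y * v) Ψ) = (y * v * v) Ψ := hR v hv _ (mul_mem hy hv)
        have h3 : r ((S * (y * v) * S) Ψ) = (S * (y * v) * S * v) Ψ :=
          hR v hv _ (hSL _ (mul_mem hy hv))
        rw [h1, he, he, map_smul, map_add, hSy, hSy, h2, h3]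
        simp only [mul_assoc, hvS1, hv2, mul_one, mul_neg, neg_mul, neg_apply]
        module) ξ
  let tr : (K →L[ℂ] K) → ℂ := fun T => (1 / 2 : ℂ) * (⟪Ψ, T Ψ⟫_ℂ + ⟪v Ψ, T (v Ψ)⟫_ℂ)
  have htr : ∀ A B : K →L[ℂ] K, tr (A * B) = (1 / 2 : ℂ) * (⟪Ψ, A (e (B Ψ))⟫_ℂ +
      ⟪Ψ, (A * r) (e ((r * B) Ψ))⟫_ℂ + (⟪Ψ, (r * A) (e ((B * r) Ψ))⟫_ℂ +
      ⟪Ψ, (r * A * r) (e ((r * B * r) Ψ))⟫_ℂ)) := by
    intro A B
    simp only [tr, mul_apply_eq_comp, ← hrΨ, hri, ← inner_add_right, ← map_add, ← hsplit]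
  have hvΨ : ⟪v Ψ, v Ψ⟫_ℂ = 1 := by
    rw [← inner_apply_star, hvs, ← mul_apply_eq_comp, hv2]
    exact h.tv.inner_self
  refine ⟨P, hPL, fun z hz hc => ?_, tr, ⟨fun x _ y _ => ?_, fun c x _ => ?_, ?_,
    fun x _ hx => ?_, fun A hA' B hB' => ?_, fun A hA' h0 => ?_, fun l x _ _ h2 => ?_⟩, ?_⟩
  · have hzL := hPL z hz
    have h1 : ∀ p ∈ P, v * z * v * p = p * (v * z * v) := by
      intro p hp
      have h2 : v * p * v ∈ P := by
        refine (hP _).2 ⟨mul_mem (mul_mem hv (hPL p hp)) hv, ?_⟩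
        conv_rhs => rw [← ((hP p).1 hp).2]
        simp only [mul_assoc, hvS1, hvS2, mul_neg, neg_mul]
      have h3 := congrArg (fun t => v * t * v) (hc _ h2)
      simpa only [mul_assoc, hv2, hvv, mul_one] using h3
    have h4 : z - v * z * v = 0 := by
      refine hout _ (sub_mem hzL (mul_mem (mul_mem hv hzL) hv)) fun y hy => ?_
      obtain ⟨p, hp, q, hq, h5, h6⟩ := hdec y hy
      have h7 : ∀ p ∈ P, (z - v * z * v) * p = p * (z - v * z * v) := fun p hp => by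
        rw [sub_mul, mul_sub, hc p hp, h1 p hp]
      have h8 : (z - v * z * v) * v = -(v * (z - v * z * v)) := by
        simp only [mul_assoc, hv2, hvv, mul_one, sub_mul, mul_sub, neg_sub]
      rw [h6, h5, mul_add, h7 p hp, ← mul_assoc, h7 q hq, mul_assoc q, h8, sub_mul p, mul_neg,
        mul_assoc q, ← sub_eq_add_neg]
    have h9 : z * v = v * z := by
      conv_lhs => rw [sub_eq_zero.1 h4, mul_assoc, hv2, mul_one]
    refine hL.ii1.factor z hzL fun y hy => ?_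
    obtain ⟨p, hp, q, hq, h5, -⟩ := hdec y hy
    rw [h5, mul_add, add_mul, hc p hp, ← mul_assoc, hc q hq, mul_assoc, h9, mul_assoc]
  · simp only [tr, add_apply, inner_add_right]
    ring
  · simp only [tr, smul_apply, inner_smul_right]
    ring
  · simp only [tr, one_apply_eq_self, hvΨ, h.tv.inner_self]
    norm_num
  · exact mul_nonneg (by norm_num [Complex.le_def])
      (add_nonneg (hx.inner_nonneg_right _) (hx.inner_nonneg_right _))
  · rw [htr, htr, hψ A hA' B hB', hψ _ (mul_mem hA' hrP) _ (mul_mem hrP hB'),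
      hψ _ (mul_mem hrP hA') _ (mul_mem hB' hrP),
      hψ _ (mul_mem (mul_mem hrP hA') hrP) _ (mul_mem (mul_mem hrP hB') hrP)]
    ring
  · simp only [tr, mul_apply_eq_comp, inner_apply_star, inner_self_eq_norm_sq_to_K] at h0
    have h1 : ((‖A Ψ‖ ^ 2 + ‖A (v Ψ)‖ ^ 2 : ℝ) : ℂ) = 0 := by
      push_cast
      exact (mul_eq_zero.1 h0).resolve_left (by norm_num)
    have h2 : ‖A Ψ‖ ^ 2 + ‖A (v Ψ)‖ ^ 2 = 0 := by exact_mod_cast h1
    have h3 : A Ψ = 0 := norm_eq_zero.1 (by nlinarith [norm_nonneg (A Ψ), sq_nonneg ‖A (v Ψ)‖])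
    have h4 : A (v Ψ) = 0 :=
      norm_eq_zero.1 (by nlinarith [norm_nonneg (A (v Ψ)), sq_nonneg ‖A Ψ‖])
    have h5 : ∀ p ∈ P, ∀ ξ, A (p ξ) = p (A ξ) := fun p hp ξ => by
      rw [← mul_apply_eq_comp, ← VonNeumannAlgebra.mem_commutant_iff.1 hA' p hp,
        mul_apply_eq_comp]
    refine h.op_ext fun y hy => ?_
    obtain ⟨p, hp, q, hq, h6, -⟩ := hdec y hy
    rw [h6, add_apply, mul_apply_eq_comp, map_add, h5 p hp, h5 q hq, h3, h4]
    simp
  · exact ((h2 Ψ Ψ).add (h2 (v Ψ) (v Ψ))).const_mul _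
  · have h1 : e (v Ψ) = 0 := by
      rw [he, hSy, hvS, neg_apply, add_neg_cancel, smul_zero]
    have h2 : e Ψ = Ψ := heP 1 (one_mem P)
    simp only [cycProj_self, hcyc, tr, h1, h2, h.tv.inner_self, inner_zero_right]
    norm_num

end Pool.Agent.MP_82452b_an.H8
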