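import Pool.Agent.MP_82452b_an.H8.TData

/-!
# Modular conjugation, right multiplications and the commutation theorem
-/

namespace Pool.Agent.MP_82452b_an.H8

open Filter Topology Pool.Agent.MP_755d6b_an.H98
open scoped InnerProductSpace

variable {H : Type} [NormedAddCommGroup H] [InnerProductSpace ℂ H] [CompleteSpace H]

/-- Evaluation at the cyclic vector. -/
noncomputable def evalAt (M : VonNeumannAlgebra H) (ξ : H) : M.toStarSubalgebra →ₗ[ℂ] H where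
  toFun x := x.1 ξ
  map_add' _ _ := rfl
  map_smul' _ _ := rfl

theorem IsSF.denseRange {M : VonNeumannAlgebra H} {Ω : H} (h : IsSF M Ω) :
    DenseRange (evalAt M Ω) :=
  h.dense.mono (by rintro _ ⟨x, hx, hx'⟩; exact ⟨⟨x, hx⟩, hx'⟩)

theorem IsSF.vec_ext {M : VonNeumannAlgebra H} {Ω : H} (h : IsSF M Ω) {ξ η : H}
    (hξ : ∀ x ∈ M, ⟪ξ, x Ω⟫_ℂ = ⟪η, x Ω⟫_ℂ) : ξ = η :=
  ext_inner_right ℂ fun ζ => h.induction (p := fun ζ => ⟪ξ, ζ⟫_ℂ = ⟪η, ζ⟫_ℂ)
    (isClosed_eq (by fun_prop) (by fun_prop)) hξ ζ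

/-- Modular conjugation. -/
theorem IsSF.exists_J {M : VonNeumannAlgebra H} {Ω : H} (h : IsSF M Ω) :
    ∃ J : H →SL[starRingEnd ℂ] H, (∀ x ∈ M, J (x Ω) = (star x) Ω) ∧ (∀ ξ, J (J ξ) = ξ) ∧
      ∀ ξ η, ⟪J ξ, η⟫_ℂ = ⟪J η, ξ⟫_ℂ := by
  let f : M.toStarSubalgebra →ₛₗ[starRingEnd ℂ] H :=
    { toFun := fun x => (star x.1) Ω
      map_add' := fun x y => by simp
      map_smul' := fun c x => by simp }
  let J : H →SL[starRingEnd ℂ] H := f.extendOfNorm (evalAt M Ω)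
  have hJ : ∀ x ∈ M, J (x Ω) = (star x) Ω := fun x hx =>
    LinearMap.extendOfNorm_eq (f := f) h.denseRange
      ⟨1, fun y => by rw [one_mul]; exact (h.tv.norm_star y.2).le⟩ ⟨x, hx⟩
  refine ⟨J, hJ, fun ξ => ?_, fun ξ η => ?_⟩
  · refine h.induction (p := fun ξ => J (J ξ) = ξ)
      (isClosed_eq (by fun_prop) continuous_id) (fun x hx => ?_) ξ
    rw [hJ x hx, hJ _ (star_mem hx), star_star]
  · refine h.induction (p := fun ξ => ⟪J ξ, η⟫_ℂ = ⟪J η, ξ⟫_ℂ)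
      (isClosed_eq (by fun_prop) (by fun_prop)) (fun x hx => ?_) ξ
    refine h.induction (p := fun η => ⟪J (x Ω), η⟫_ℂ = ⟪J η, x Ω⟫_ℂ)
      (isClosed_eq (by fun_prop) (by fun_prop)) (fun y hy => ?_) η
    rw [hJ x hx, hJ y hy, inner_star_apply, inner_star_apply, h.tv.tr x hx y hy]

/-- Right multiplications. -/
theorem IsSF.exists_R {M : VonNeumannAlgebra H} {Ω : H} (h : IsSF M Ω) :
    ∃ R : (H →L[ℂ] H) → (H →L[ℂ] H), (∀ x ∈ M, ∀ y ∈ M, R x (y Ω) = y (x Ω)) ∧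
      (∀ x ∈ M, R x ∈ M.commutant) ∧ (∀ x ∈ M, star (R x) = R (star x)) ∧
      (∀ x ∈ M, ‖R x‖ ≤ ‖x‖) ∧ ∀ T : H →L[ℂ] H, (∀ x ∈ M, R x * T = T * R x) → T ∈ M := by
  obtain ⟨J, hJ, -, hJs⟩ := h.exists_J
  let R : (H →L[ℂ] H) → (H →L[ℂ] H) := fun x => (evalAt M (x Ω)).extendOfNorm (evalAt M Ω)
  have hb : ∀ x ∈ M, ∀ y : M.toStarSubalgebra, ‖evalAt M (x Ω) y‖ ≤ ‖x‖ * ‖evalAt M Ω y‖ :=
    fun x hx y => h.tv.norm_mul_right y.2 hx
  have hR : ∀ x ∈ M, ∀ y ∈ M, R x (y Ω) = y (x Ω) := fun x hx y hy =>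
    LinearMap.extendOfNorm_eq h.denseRange ⟨_, hb x hx⟩ ⟨y, hy⟩
  have hR1 : ∀ x ∈ M, R x Ω = x Ω := fun x hx => hR x hx 1 (one_mem M)
  have hc : ∀ x ∈ M, R x ∈ M.commutant := fun x hx => by
    rw [VonNeumannAlgebra.mem_commutant_iff]
    intro g hg
    refine h.op_ext fun y hy => ?_
    show g (R x (y Ω)) = R x ((g * y) Ω)
    rw [hR x hx y hy, hR x hx _ (mul_mem hg hy)]
    rfl
  have hs : ∀ x ∈ M, star (R x) = R (star x) := fun x hx => by
    refine h.op_ext fun y hy => h.vec_ext fun z hz => ?_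
    rw [inner_star_apply, hR x hx z hz, hR _ (star_mem hx) y hy, ← inner_apply_star y,
      ← inner_apply_star y, inner_star_apply]
    exact h.tv.tr (star y * z) (mul_mem (star_mem hy) hz) x hx
  refine ⟨R, hR, hc, hs, fun x hx =>
    LinearMap.opNorm_extendOfNorm_le h.denseRange (norm_nonneg x) (hb x hx), fun T hT => ?_⟩
  have h1 : ∀ T : H →L[ℂ] H, (∀ x ∈ M, R x * T = T * R x) → (star T) Ω = J (T Ω) := by
    intro T hT
    refine h.vec_ext fun x hx => ?_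
    rw [inner_star_apply, hJs, hJ x hx, ← hR1 _ (star_mem hx), ← hs x hx, inner_star_apply,
      ← mul_apply_eq_comp (R x), hT x hx, mul_apply_eq_comp, hR1 x hx]
  have h2 : ∀ A ∈ M.commutant, (star A) Ω = J (A Ω) := by
    intro A hA
    rw [VonNeumannAlgebra.mem_commutant_iff] at hA
    refine h.vec_ext fun x hx => ?_
    rw [inner_star_apply, hJs, hJ x hx, inner_star_apply, ← mul_apply_eq_comp x, hA x hx,
      mul_apply_eq_comp]
  have h3 : ∀ T : H →L[ℂ] H, (∀ x ∈ M, R x * T = T * R x) → ∀ A ∈ M.commutant,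
      ⟪Ω, T (A Ω)⟫_ℂ = ⟪Ω, A (T Ω)⟫_ℂ := by
    intro T hT A hA
    rw [← inner_star_apply T Ω, ← inner_star_apply A Ω, h1 T hT, h2 A hA, hJs]
  rw [← M.commutant_commutant, VonNeumannAlgebra.mem_commutant_iff]
  intro A hA
  refine h.op_ext fun y hy => ?_
  refine ext_inner_left ℂ fun ζ => h.induction
    (p := fun ζ => ⟪ζ, (A * T) (y Ω)⟫_ℂ = ⟪ζ, (T * A) (y Ω)⟫_ℂ)
    (isClosed_eq (by fun_prop) (by fun_prop)) (fun x hx => ?_) ζ
  have h4 : ∀ z ∈ M, star x * R z = R z * star x := fun z hz =>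
    VonNeumannAlgebra.mem_commutant_iff.1 (hc z hz) _ (star_mem hx)
  have h5 := h3 (star x * T) (fun z hz => by rw [← mul_assoc, ← h4 z hz, mul_assoc, hT z hz,
    mul_assoc]) (A * R y) (mul_mem hA (hc y hy))
  have h6 : A * R y * (star x * T) = star x * (A * T) * R y := by
    rw [← mul_assoc (star x), VonNeumannAlgebra.mem_commutant_iff.1 hA _ (star_mem hx),
      mul_assoc (A * star x), ← hT y hy, mul_assoc A, mul_assoc A, ← mul_assoc (R y), ← h4 y hy,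
      mul_assoc]
  rw [← mul_apply_eq_comp (A * R y), h6] at h5
  simp only [mul_apply_eq_comp, inner_apply_star, hR1 y hy] at h5 ⊢
  exact h5.symm

end Pool.Agent.MP_82452b_an.H8
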